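import Mathlib

set_option autoImplicit false

namespace Pool.Agent.Pr8db9c5

open Filter Topology

variable {X : Type} [NormedAddCommGroup X] [NormedSpace ℝ X]

/-- `(x_i)` is an unconditional (Schauder) basis of `X`: every vector has an expansion which
converges unconditionally, and it is the only expansion of the vector, even among series that
converge only in the natural order. -/
def IsUnconditionalBasis (x : ℕ → X) : Prop :=
  ∀ v : X, ∃ a : ℕ → ℝ, HasSum (fun i => a i • x i) v ∧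
    ∀ b : ℕ → ℝ, Tendsto (fun n => ∑ i ∈ Finset.range n, b i • x i) atTop (𝓝 v) → b = a

/-- The set of values whose supremum is the Jamesification norm of `a`: one value for each choice
of `k ≥ 1` and `p 0 ≤ q 0 < p 1 ≤ q 1 < ... < p (k-1) ≤ q (k-1)`. -/
def jset (x : ℕ → X) (a : ℕ →₀ ℝ) : Set ℝ :=
  {r | ∃ (k : ℕ) (p q : ℕ → ℕ), 1 ≤ k ∧ (∀ i < k, p i ≤ q i) ∧ (∀ i, i + 1 < k → q i < p (i + 1)) ∧
    r = ‖∑ i ∈ Finset.range k, (∑ j ∈ Finset.Icc (p i) (q i), a j) • x (p i)‖}

/-- The Jamesification norm on `c₀₀`. -/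
noncomputable def jnorm (x : ℕ → X) (a : ℕ →₀ ℝ) : ℝ := sSup (jset x a)

/-- `(J, ι)` is the Jamesification `J(x_i)`: a completion of `c₀₀` for the norm `jnorm x`. -/
structure IsJamesification (x : ℕ → X) (J : Type) [NormedAddCommGroup J] [NormedSpace ℝ J]
    (ι : (ℕ →₀ ℝ) →ₗ[ℝ] J) : Prop where
  complete : CompleteSpace J
  dense : DenseRange ι
  bdd : ∀ a, BddAbove (jset x a)
  norm_eq : ∀ a, ‖ι a‖ = jnorm x a

/-- `X` is reflexive. -/
def IsReflexive (X : Type) [NormedAddCommGroup X] [NormedSpace ℝ X] : Prop :=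
  Function.Surjective (NormedSpace.inclusionInDoubleDual ℝ X)

/-- The surjective linear isometries of `J` are `Id` and `-Id` only. -/
def TrivialIsometryGroup (J : Type) [NormedAddCommGroup J] [NormedSpace ℝ J] : Prop :=
  ∀ T : J →ₗ[ℝ] J, Function.Surjective T → (∀ z, ‖T z‖ = ‖z‖) →
    (∀ z, T z = z) ∨ (∀ z, T z = -z)

end Pool.Agent.Pr8db9c5
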