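import Mathlib
import Pool.Agent.Pr8db9c5.Defs

set_option autoImplicit false

namespace Pool.Agent.Pr8db9c5

open Filter Topology

/-! ### reflexivity -/

abbrev Refl (E : Type) [NormedAddCommGroup E] [NormedSpace ℝ E] : Prop :=
  Function.Surjective (NormedSpace.inclusionInDoubleDual ℝ E)

lemma refl_hilbert (H : Type) [NormedAddCommGroup H] [InnerProductSpace ℝ H] [CompleteSpace H] :
    Refl H := by
  intro Φ
  -- the functional `y ↦ Φ (toDual y)`
  set f : StrongDual ℝ H := LinearMap.mkContinuous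
    { toFun := fun y => Φ (InnerProductSpace.toDual ℝ H y)
      map_add' := fun y z => by rw [map_add, map_add]
      map_smul' := fun c y => by simp } ‖Φ‖
    (fun y => by
      have h := Φ.le_opNorm (InnerProductSpace.toDual ℝ H y)
      rw [LinearIsometryEquiv.norm_map] at h
      exact h) with hf
  refine ⟨(InnerProductSpace.toDual ℝ H).symm f, ?_⟩
  ext g
  rw [NormedSpace.dual_def]
  obtain ⟨y, rfl⟩ := (InnerProductSpace.toDual ℝ H).surjective g
  have h1 : (InnerProductSpace.toDual ℝ H y) ((InnerProductSpace.toDual ℝ H).symm f) = f y := by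
    rw [InnerProductSpace.toDual_apply_apply, real_inner_comm, ← InnerProductSpace.toDual_apply_apply,
      LinearIsometryEquiv.apply_symm_apply]
  rw [h1]
  rfl

lemma refl_prod (E F : Type) [NormedAddCommGroup E] [NormedSpace ℝ E] [NormedAddCommGroup F]
    [NormedSpace ℝ F] (hE : Refl E) (hF : Refl F) : Refl (E × F) := by
  intro Φ
  set c1 : StrongDual ℝ E →L[ℝ] StrongDual ℝ (E × F) :=
    (ContinuousLinearMap.compL ℝ (E × F) E ℝ).flip (ContinuousLinearMap.fst ℝ E F) with hc1
  set c2 : StrongDual ℝ F →L[ℝ] StrongDual ℝ (E × F) :=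
    (ContinuousLinearMap.compL ℝ (E × F) F ℝ).flip (ContinuousLinearMap.snd ℝ E F) with hc2
  obtain ⟨x, hx⟩ := hE (Φ.comp c1)
  obtain ⟨y, hy⟩ := hF (Φ.comp c2)
  refine ⟨(x, y), ?_⟩
  ext f
  rw [NormedSpace.dual_def]
  have e1 : f = c1 (f.comp (ContinuousLinearMap.inl ℝ E F)) + c2 (f.comp (ContinuousLinearMap.inr ℝ E F)) := by
    ext z
    · simp [hc1, hc2]
      exact map_zero f
    · simp [hc1, hc2]
      exact map_zero f
  have h1 := congrArg (fun L : StrongDual ℝ (StrongDual ℝ E) => L (f.comp (ContinuousLinearMap.inl ℝ E F))) hx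
  have h2 := congrArg (fun L : StrongDual ℝ (StrongDual ℝ F) => L (f.comp (ContinuousLinearMap.inr ℝ E F))) hy
  simp only [NormedSpace.dual_def] at h1 h2
  have h3 : Φ f = Φ (c1 (f.comp (ContinuousLinearMap.inl ℝ E F))) + Φ (c2 (f.comp (ContinuousLinearMap.inr ℝ E F))) := by
    rw [← map_add, ← e1]
  rw [h3]
  have h1' : f ((x, 0) : E × F) = Φ (c1 (f.comp (ContinuousLinearMap.inl ℝ E F))) := h1
  have h2' : f ((0, y) : E × F) = Φ (c2 (f.comp (ContinuousLinearMap.inr ℝ E F))) := h2
  rw [← h1', ← h2', ← map_add]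
  simp

/-! ### the space -/

abbrev H := lp (fun _ : ℕ => ℝ) 2

abbrev X0 := ℝ × (ℝ × H)

lemma refl_X0 : Refl X0 := refl_prod _ _ (refl_hilbert ℝ) (refl_prod _ _ (refl_hilbert ℝ) (refl_hilbert H))

noncomputable def bvec : ℕ → X0
  | 0 => (1, 0, 0)
  | 1 => (0, 1, 0)
  | n + 2 => (0, 0, lp.single 2 n (1 : ℝ))

noncomputable def evalH (n : ℕ) : H →L[ℝ] ℝ :=
  LinearMap.mkContinuous
    { toFun := fun v => v n
      map_add' := fun _ _ => rfl
      map_smul' := fun _ _ => rfl } 1
    (fun v => by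
      rw [one_mul]
      exact lp.norm_apply_le_norm (by norm_num) v n)

lemma evalH_apply (n : ℕ) (v : H) : evalH n v = v n := rfl

noncomputable def bcoord : ℕ → StrongDual ℝ X0
  | 0 => ContinuousLinearMap.fst ℝ ℝ (ℝ × H)
  | 1 => (ContinuousLinearMap.fst ℝ ℝ H).comp (ContinuousLinearMap.snd ℝ ℝ (ℝ × H))
  | n + 2 => (evalH n).comp ((ContinuousLinearMap.snd ℝ ℝ H).comp (ContinuousLinearMap.snd ℝ ℝ (ℝ × H)))

lemma single_apply' (i j : ℕ) : ((lp.single 2 j (1 : ℝ) : H) : ℕ → ℝ) i = if i = j then 1 else 0 := by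
  by_cases h : i = j
  · subst h
    rw [lp.single_apply_self]
    simp
  · rw [lp.single_apply_ne 2 j _ h]
    simp [h]

lemma ortho' (i j : ℕ) : bcoord i (bvec j) = if i = j then 1 else 0 := by
  rcases i with _ | _ | i <;> rcases j with _ | _ | j
  · simp [bcoord, bvec]
  · simp [bcoord, bvec]
  · simp [bcoord, bvec]
  · simp [bcoord, bvec]
  · simp [bcoord, bvec]
  · simp [bcoord, bvec]
  · simp [bcoord, bvec]
  · simp [bcoord, bvec]
  · simp only [bcoord, bvec, ContinuousLinearMap.comp_apply, ContinuousLinearMap.coe_snd', evalH_apply]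
    rw [single_apply' i j]
    by_cases h : i = j
    · subst h; simp
    · simp [h]

lemma expansion' (v : X0) : HasSum (fun i : ℕ => (bcoord i) v • bvec i) v := by
  rw [← hasSum_nat_add_iff' 2]
  have h1 : v - ∑ i ∈ Finset.range 2, (bcoord i) v • bvec i = (0, 0, v.2.2) := by
    rw [Finset.sum_range_succ, Finset.sum_range_one]
    obtain ⟨a, b, c⟩ := v
    simp [bcoord, bvec]
  rw [h1]
  have h2 : HasSum (fun n : ℕ => lp.single 2 n ((v.2.2 : H) n)) v.2.2 :=
    lp.hasSum_single (by norm_num) v.2.2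
  have h3 := h2.mapL ((ContinuousLinearMap.inr ℝ ℝ (ℝ × H)).comp (ContinuousLinearMap.inr ℝ ℝ H))
  refine h3.congr_fun (fun n => ?_)
  simp only [bcoord, bvec, ContinuousLinearMap.comp_apply, ContinuousLinearMap.coe_snd', evalH_apply,
    ContinuousLinearMap.inr_apply, Prod.smul_mk, smul_zero]
  congr 2
  rw [← lp.single_smul]
  simp

lemma isUB : IsUnconditionalBasis bvec := by
  intro v
  refine ⟨fun i => bcoord i v, expansion' v, fun b hb => ?_⟩
  funext i
  have h1 := ((bcoord i).continuous.tendsto v).comp hb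
  have h2 : Tendsto ((bcoord i) ∘ fun n => ∑ j ∈ Finset.range n, b j • bvec j) atTop (𝓝 (b i)) := by
    refine tendsto_const_nhds.congr' ?_
    filter_upwards [eventually_gt_atTop i] with n hn
    simp only [Function.comp, map_sum, map_smul, ortho', smul_eq_mul]
    rw [Finset.sum_eq_single_of_mem i (Finset.mem_range.mpr hn)]
    · simp
    · intro j _ hj
      simp [Ne.symm hj]
  exact tendsto_nhds_unique h2 h1

/-! ### the norm -/

/-- admissible choices -/
def Adm (k : ℕ) (p q : ℕ → ℕ) : Prop :=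
  1 ≤ k ∧ (∀ i < k, p i ≤ q i) ∧ (∀ i, i + 1 < k → q i < p (i + 1))

noncomputable def vec (k : ℕ) (p q : ℕ → ℕ) (a : ℕ →₀ ℝ) : X0 :=
  ∑ i ∈ Finset.range k, (∑ j ∈ Finset.Icc (p i) (q i), a j) • bvec (p i)

lemma mem_jset (a : ℕ →₀ ℝ) (r : ℝ) : r ∈ jset bvec a ↔ ∃ k p q, Adm k p q ∧ r = ‖vec k p q a‖ := by
  constructor
  · rintro ⟨k, p, q, h1, h2, h3, h4⟩
    exact ⟨k, p, q, ⟨h1, h2, h3⟩, h4⟩
  · rintro ⟨k, p, q, ⟨h1, h2, h3⟩, h4⟩
    exact ⟨k, p, q, h1, h2, h3, h4⟩

lemma bvec_norm (n : ℕ) : ‖bvec n‖ ≤ 1 := by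
  rcases n with _ | _ | n
  · simp [bvec, Prod.norm_def]
  · simp [bvec, Prod.norm_def]
  · have : ‖(lp.single 2 n (1 : ℝ) : H)‖ = 1 := by
      rw [lp.norm_single (by norm_num)]; simp
    simp [bvec, Prod.norm_def, this]

lemma sum_disj (k : ℕ) (p q : ℕ → ℕ) (h : Adm k p q) (a : ℕ →₀ ℝ) :
    ∑ i ∈ Finset.range k, ∑ j ∈ Finset.Icc (p i) (q i), |a j| ≤ ∑ j ∈ Finset.range (q (k - 1) + 1), |a j| := by
  obtain ⟨h1, h2, h3⟩ := h
  induction k, h1 using Nat.le_induction with
  | base =>
    simp only [Finset.range_one, Finset.sum_singleton, Nat.sub_self]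
    apply Finset.sum_le_sum_of_subset_of_nonneg
    · intro j hj
      rw [Finset.mem_Icc] at hj
      exact Finset.mem_range.mpr (by omega)
    · intro _ _ _; exact abs_nonneg _
  | succ k hk ih =>
    rw [Finset.sum_range_succ]
    have ih' := ih (fun i hi => h2 i (by omega)) (fun i hi => h3 i (by omega))
    have hlt : q (k - 1) < p k := by
      have := h3 (k - 1) (by omega)
      rwa [Nat.sub_add_cancel hk] at this
    have e : k + 1 - 1 = k := by omega
    rw [e]
    calc _ ≤ ∑ j ∈ Finset.range (q (k - 1) + 1), |a j| + ∑ j ∈ Finset.Icc (p k) (q k), |a j| := by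
          gcongr
      _ = ∑ j ∈ Finset.range (q (k - 1) + 1) ∪ Finset.Icc (p k) (q k), |a j| := by
          rw [Finset.sum_union]
          rw [Finset.disjoint_left]
          intro j hj1 hj2
          rw [Finset.mem_range] at hj1
          rw [Finset.mem_Icc] at hj2
          omega
      _ ≤ ∑ j ∈ Finset.range (q k + 1), |a j| := by
          apply Finset.sum_le_sum_of_subset_of_nonneg
          · intro j hj
            rw [Finset.mem_union, Finset.mem_range, Finset.mem_Icc] at hj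
            have := h2 k (by omega)
            exact Finset.mem_range.mpr (by omega)
          · intro _ _ _; exact abs_nonneg _

lemma vec_norm_le (k : ℕ) (p q : ℕ → ℕ) (h : Adm k p q) (a : ℕ →₀ ℝ) :
    ‖vec k p q a‖ ≤ ∑ j ∈ a.support, |a j| := by
  calc ‖vec k p q a‖ ≤ ∑ i ∈ Finset.range k, ‖(∑ j ∈ Finset.Icc (p i) (q i), a j) • bvec (p i)‖ := norm_sum_le _ _
    _ ≤ ∑ i ∈ Finset.range k, ∑ j ∈ Finset.Icc (p i) (q i), |a j| := by
        apply Finset.sum_le_sum
        intro i _
        rw [norm_smul, Real.norm_eq_abs]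
        have h1 := Finset.abs_sum_le_sum_abs (fun j => a j) (Finset.Icc (p i) (q i))
        have h2 := bvec_norm (p i)
        calc |∑ j ∈ Finset.Icc (p i) (q i), a j| * ‖bvec (p i)‖
            ≤ |∑ j ∈ Finset.Icc (p i) (q i), a j| * 1 := by gcongr
          _ ≤ _ := by rw [mul_one]; exact h1
    _ ≤ ∑ j ∈ Finset.range (q (k - 1) + 1), |a j| := sum_disj k p q h a
    _ ≤ ∑ j ∈ a.support, |a j| := by
        rw [← Finset.sum_filter_of_ne (s := Finset.range (q (k - 1) + 1)) (p := fun j => j ∈ a.support)]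
        · apply Finset.sum_le_sum_of_subset_of_nonneg
          · intro j hj
            exact (Finset.mem_filter.mp hj).2
          · intro _ _ _; exact abs_nonneg _
        · intro j _ hj
          rw [Finsupp.mem_support_iff]
          intro h0
          exact hj (by rw [h0, abs_zero])

lemma jbdd (a : ℕ →₀ ℝ) : BddAbove (jset bvec a) := by
  refine ⟨∑ j ∈ a.support, |a j|, ?_⟩
  rintro r hr
  obtain ⟨k, p, q, h, rfl⟩ := (mem_jset a r).1 hr
  exact vec_norm_le k p q h a

lemma vec_le (k : ℕ) (p q : ℕ → ℕ) (h : Adm k p q) (a : ℕ →₀ ℝ) : ‖vec k p q a‖ ≤ jnorm bvec a :=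
  le_csSup (jbdd a) ((mem_jset a _).2 ⟨k, p, q, h, rfl⟩)

lemma adm_one (s t : ℕ) (h : s ≤ t) : Adm 1 (fun _ => s) (fun _ => t) :=
  ⟨le_rfl, fun _ _ => h, fun i hi => by omega⟩

lemma jset_nonempty (a : ℕ →₀ ℝ) : (jset bvec a).Nonempty :=
  ⟨_, (mem_jset a _).2 ⟨1, _, _, adm_one 0 0 le_rfl, rfl⟩⟩

lemma jnorm_nonneg (a : ℕ →₀ ℝ) : 0 ≤ jnorm bvec a :=
  le_trans (norm_nonneg _) (vec_le 1 _ _ (adm_one 0 0 le_rfl) a)

lemma jnorm_le (a : ℕ →₀ ℝ) (C : ℝ) (h : ∀ k p q, Adm k p q → ‖vec k p q a‖ ≤ C) :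
    jnorm bvec a ≤ C := by
  apply csSup_le (jset_nonempty a)
  intro r hr
  obtain ⟨k, p, q, hA, rfl⟩ := (mem_jset a r).1 hr
  exact h k p q hA

lemma vec_add (k : ℕ) (p q : ℕ → ℕ) (a b : ℕ →₀ ℝ) : vec k p q (a + b) = vec k p q a + vec k p q b := by
  simp only [vec, Finsupp.add_apply, Finset.sum_add_distrib, add_smul]

lemma vec_smul (k : ℕ) (p q : ℕ → ℕ) (c : ℝ) (a : ℕ →₀ ℝ) : vec k p q (c • a) = c • vec k p q a := by
  simp only [vec, Finsupp.smul_apply, smul_eq_mul, ← Finset.mul_sum, Finset.smul_sum, smul_smul]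

lemma jnorm_add_le (a b : ℕ →₀ ℝ) : jnorm bvec (a + b) ≤ jnorm bvec a + jnorm bvec b := by
  apply jnorm_le
  intro k p q h
  rw [vec_add]
  exact (norm_add_le _ _).trans (add_le_add (vec_le k p q h a) (vec_le k p q h b))

lemma jnorm_smul_le (c : ℝ) (a : ℕ →₀ ℝ) : jnorm bvec (c • a) ≤ |c| * jnorm bvec a := by
  apply jnorm_le
  intro k p q h
  rw [vec_smul, norm_smul, Real.norm_eq_abs]
  exact mul_le_mul_of_nonneg_left (vec_le k p q h a) (abs_nonneg c)

lemma jnorm_smul (c : ℝ) (a : ℕ →₀ ℝ) : jnorm bvec (c • a) = |c| * jnorm bvec a := by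
  apply le_antisymm (jnorm_smul_le c a)
  by_cases hc : c = 0
  · subst hc; simp only [abs_zero, zero_mul]; exact jnorm_nonneg _
  · have h := jnorm_smul_le c⁻¹ (c • a)
    rw [smul_smul, inv_mul_cancel₀ hc, one_smul, abs_inv] at h
    have hc' : 0 < |c| := abs_pos.mpr hc
    calc |c| * jnorm bvec a ≤ |c| * (|c|⁻¹ * jnorm bvec (c • a)) := by gcongr
      _ = jnorm bvec (c • a) := by rw [← mul_assoc, mul_inv_cancel₀ hc'.ne', one_mul]

/-! ### the isometry of `c₀₀` -/

noncomputable def TL : (ℕ →₀ ℝ) →ₗ[ℝ] (ℕ →₀ ℝ) :=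
  LinearMap.id - (2 : ℝ) • (Finsupp.lsingle 0 ∘ₗ Finsupp.lapply 0) + (Finsupp.lsingle 1 ∘ₗ Finsupp.lapply 0)

lemma TL_apply (a : ℕ →₀ ℝ) (n : ℕ) :
    TL a n = a n - 2 * (if n = 0 then a 0 else 0) + (if n = 1 then a 0 else 0) := by
  simp only [TL, LinearMap.add_apply, LinearMap.sub_apply, LinearMap.smul_apply, LinearMap.comp_apply,
    LinearMap.id_apply, Finsupp.lapply_apply, Finsupp.lsingle_apply, Finsupp.add_apply,
    Finsupp.sub_apply, Finsupp.smul_apply, Finsupp.single_apply, smul_eq_mul, eq_comm (a := n)]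

lemma TL_zero (a : ℕ →₀ ℝ) : TL a 0 = - a 0 := by rw [TL_apply]; simp; ring
lemma TL_one (a : ℕ →₀ ℝ) : TL a 1 = a 1 + a 0 := by rw [TL_apply]; simp
lemma TL_ge (a : ℕ →₀ ℝ) (n : ℕ) (h : 2 ≤ n) : TL a n = a n := by
  have h0 : n ≠ 0 := by omega
  have h1 : n ≠ 1 := by omega
  rw [TL_apply]; simp [h0, h1]

lemma TL_TL (a : ℕ →₀ ℝ) : TL (TL a) = a := by
  ext n
  rcases n with _ | _ | n
  · rw [TL_zero, TL_zero, neg_neg]
  · rw [zero_add, TL_one, TL_one, TL_zero]; ring
  · rw [TL_ge _ _ (by omega), TL_ge _ _ (by omega)]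

lemma Icc_split (s t : ℕ) (h : s ≤ t) (f : ℕ → ℝ) :
    ∑ j ∈ Finset.Icc s t, f j = f s + ∑ j ∈ Finset.Icc (s + 1) t, f j := by
  have e : Finset.Ioc s t = Finset.Icc (s + 1) t := by
    ext j; simp only [Finset.mem_Ioc, Finset.mem_Icc]; omega
  rw [← Finset.sum_Ioc_add_eq_sum_Icc h, add_comm, e]

lemma adm_lb (k : ℕ) (p q : ℕ → ℕ) (h : Adm k p q) (i : ℕ) (hi : i < k) : i ≤ p i := by
  induction i with
  | zero => exact Nat.zero_le _
  | succ i ih =>
    have h1 := ih (by omega)
    have h2 := h.2.1 i (by omega)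
    have h3 := h.2.2 i (by omega)
    omega

/-- the scalar sums -/
noncomputable def sm (a : ℕ →₀ ℝ) (s t : ℕ) : ℝ := ∑ j ∈ Finset.Icc s t, a j

lemma sm_TL_ge (a : ℕ →₀ ℝ) (s t : ℕ) (hs : 2 ≤ s) : sm (TL a) s t = sm a s t := by
  apply Finset.sum_congr rfl
  intro j hj
  rw [Finset.mem_Icc] at hj
  exact TL_ge a j (by omega)

lemma sm_TL_one (a : ℕ →₀ ℝ) (t : ℕ) (ht : 1 ≤ t) : sm (TL a) 1 t = sm a 0 t := by
  have h1 : sm (TL a) 1 t = TL a 1 + sm (TL a) 2 t := Icc_split 1 t ht _
  have h2 : sm a 0 t = a 0 + sm a 1 t := Icc_split 0 t (by omega) _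
  have h3 : sm a 1 t = a 1 + sm a 2 t := Icc_split 1 t ht _
  rw [h1, h2, h3, TL_one, sm_TL_ge a 2 t le_rfl]; ring

lemma sm_TL_zero_pos (a : ℕ →₀ ℝ) (t : ℕ) (ht : 1 ≤ t) : sm (TL a) 0 t = sm a 1 t := by
  have h1 : sm (TL a) 0 t = TL a 0 + sm (TL a) 1 t := Icc_split 0 t (by omega) _
  have h2 : sm a 0 t = a 0 + sm a 1 t := Icc_split 0 t (by omega) _
  rw [h1, TL_zero, sm_TL_one a t ht, h2]; ring

lemma sm_TL_zero_zero (a : ℕ →₀ ℝ) : sm (TL a) 0 0 = - sm a 0 0 := by
  simp only [sm, Finset.Icc_self, Finset.sum_singleton, TL_zero]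

lemma abs_sm_zero_le (a : ℕ →₀ ℝ) (t : ℕ) : |sm a 0 t| ≤ jnorm bvec a := by
  have h := vec_le 1 _ _ (adm_one 0 t (by omega)) a
  refine le_trans (le_of_eq ?_) h
  simp only [vec, Finset.range_one, Finset.sum_singleton, bvec, Prod.smul_mk, Prod.norm_def]
  simp [sm]

lemma abs_sm_one_le (a : ℕ →₀ ℝ) (t : ℕ) (ht : 1 ≤ t) : |sm a 1 t| ≤ jnorm bvec a := by
  have h := vec_le 1 _ _ (adm_one 1 t ht) a
  refine le_trans (le_of_eq ?_) h
  simp only [vec, Finset.range_one, Finset.sum_singleton, bvec, Prod.smul_mk, Prod.norm_def]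
  simp [sm]

lemma vec_fst (k : ℕ) (p q : ℕ → ℕ) (a : ℕ →₀ ℝ) :
    (vec k p q a).1 = ∑ i ∈ Finset.range k, sm a (p i) (q i) * (bvec (p i)).1 := by
  simp only [vec, Prod.fst_sum, Prod.smul_fst, smul_eq_mul, sm]

lemma vec_snd_fst (k : ℕ) (p q : ℕ → ℕ) (a : ℕ →₀ ℝ) :
    (vec k p q a).2.1 = ∑ i ∈ Finset.range k, sm a (p i) (q i) * (bvec (p i)).2.1 := by
  simp only [vec, Prod.snd_sum, Prod.fst_sum, Prod.smul_snd, Prod.smul_fst, smul_eq_mul, sm]

lemma vec_snd_snd (k : ℕ) (p q : ℕ → ℕ) (a : ℕ →₀ ℝ) :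
    (vec k p q a).2.2 = ∑ i ∈ Finset.range k, sm a (p i) (q i) • (bvec (p i)).2.2 := by
  simp only [vec, Prod.snd_sum, Prod.smul_snd, sm]

lemma jnorm_TL_le (a : ℕ →₀ ℝ) : jnorm bvec (TL a) ≤ jnorm bvec a := by
  apply jnorm_le
  intro k p q h
  rw [Prod.norm_def, Prod.norm_def]
  apply max_le
  · -- first coordinate
    have h1 : (vec k p q (TL a)).1 = sm (TL a) (p 0) (q 0) * (bvec (p 0)).1 := by
      rw [vec_fst]
      apply Finset.sum_eq_single_of_mem 0 (Finset.mem_range.mpr h.1)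
      intro i hi hne
      have := adm_lb k p q h i (Finset.mem_range.mp hi)
      have h2 : (bvec (p i)).1 = 0 := by
        obtain ⟨m, hm⟩ : ∃ m, p i = m + 1 := ⟨p i - 1, by omega⟩
        rw [hm]
        rcases m with _ | m <;> rfl
      rw [h2, mul_zero]
    rw [h1]
    by_cases hp : p 0 = 0
    · rw [hp]
      have hb : (bvec 0).1 = 1 := rfl
      rw [hb, mul_one, Real.norm_eq_abs]
      by_cases hq : q 0 = 0
      · rw [hq, sm_TL_zero_zero, abs_neg]; exact abs_sm_zero_le a 0
      · rw [sm_TL_zero_pos a _ (by omega)]; exact abs_sm_one_le a _ (by omega)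
    · have h2 : (bvec (p 0)).1 = 0 := by
        obtain ⟨m, hm⟩ : ∃ m, p 0 = m + 1 := ⟨p 0 - 1, by omega⟩
        rw [hm]
        rcases m with _ | m <;> rfl
      rw [h2, mul_zero, norm_zero]; exact jnorm_nonneg a
  · apply max_le
    · -- second coordinate
      rw [vec_snd_fst]
      by_cases hex : ∃ i0 < k, p i0 = 1
      · obtain ⟨i0, hi0, hp0⟩ := hex
        have hmono : ∀ i j, i < j → j < k → p i < p j := by
          intro i j hij
          induction j, hij using Nat.le_induction with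
          | base =>
            intro hj
            have h2 := h.2.1 i (by omega)
            have h3 := h.2.2 i hj
            exact lt_of_le_of_lt h2 h3
          | succ j hj ih =>
            intro hk
            have h1 := ih (by omega)
            have h2 := h.2.1 j (by omega)
            have h3 := h.2.2 j hk
            omega
        rw [Finset.sum_eq_single_of_mem i0 (Finset.mem_range.mpr hi0)]
        · rw [hp0]
          have hb : (bvec 1).2.1 = 1 := rfl
          have hq := h.2.1 i0 hi0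
          rw [hb, mul_one, Real.norm_eq_abs, sm_TL_one a _ (by omega)]
          exact abs_sm_zero_le a _
        · intro i hi hne
          have hi' := Finset.mem_range.mp hi
          have h2 : p i ≠ 1 := by
            rcases Nat.lt_or_gt_of_ne hne with h' | h'
            · have := hmono i i0 h' hi0; omega
            · have := hmono i0 i h' hi'; omega
          have h3 : (bvec (p i)).2.1 = 0 := by
            rcases hpi : p i with _ | _ | m
            · rfl
            · exact absurd hpi h2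
            · rfl
          rw [h3, mul_zero]
      · push Not at hex
        rw [Finset.sum_eq_zero]
        · rw [norm_zero]; exact jnorm_nonneg a
        · intro i hi
          have h2 := hex i (Finset.mem_range.mp hi)
          have h3 : (bvec (p i)).2.1 = 0 := by
            rcases hpi : p i with _ | _ | m
            · rfl
            · exact absurd hpi h2
            · rfl
          rw [h3, mul_zero]
    · -- tail
      have e : (vec k p q (TL a)).2.2 = (vec k p q a).2.2 := by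
        rw [vec_snd_snd, vec_snd_snd]
        apply Finset.sum_congr rfl
        intro i _
        by_cases hp : 2 ≤ p i
        · rw [sm_TL_ge a _ _ hp]
        · have h3 : (bvec (p i)).2.2 = 0 := by
            rcases hpi : p i with _ | _ | m
            · rfl
            · rfl
            · omega
          rw [h3, smul_zero, smul_zero]
      rw [e]
      refine le_trans ?_ (vec_le k p q h a)
      exact (norm_snd_le (vec k p q a).2).trans (norm_snd_le (vec k p q a))

lemma jnorm_TL (a : ℕ →₀ ℝ) : jnorm bvec (TL a) = jnorm bvec a := by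
  apply le_antisymm (jnorm_TL_le a)
  have := jnorm_TL_le (TL a)
  rwa [TL_TL] at this

/-! ### the completion -/

/-- `c₀₀` with the Jamesification norm -/
def C00 : Type := ℕ →₀ ℝ

noncomputable instance : AddCommGroup C00 := inferInstanceAs (AddCommGroup (ℕ →₀ ℝ))
noncomputable instance : Module ℝ C00 := inferInstanceAs (Module ℝ (ℕ →₀ ℝ))
noncomputable instance : Norm C00 := ⟨fun a => jnorm bvec a⟩

lemma core : SeminormedSpace.Core ℝ C00 where
  norm_nonneg a := jnorm_nonneg a
  norm_smul c a := jnorm_smul c a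
  norm_triangle a b := jnorm_add_le a b

noncomputable instance : SeminormedAddCommGroup C00 := SeminormedAddCommGroup.ofCore core
noncomputable instance : NormedSpace ℝ C00 where
  norm_smul_le c a := le_of_eq (jnorm_smul c a)

abbrev J := UniformSpace.Completion C00

noncomputable def toC : (ℕ →₀ ℝ) →ₗ[ℝ] C00 := LinearMap.id

noncomputable def iota : (ℕ →₀ ℝ) →ₗ[ℝ] J := (UniformSpace.Completion.toComplₗᵢ (𝕜 := ℝ) (E := C00)).toLinearMap ∘ₗ toC

lemma iota_apply (a : ℕ →₀ ℝ) : iota a = ((toC a : C00) : J) := rfl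

lemma iota_norm (a : ℕ →₀ ℝ) : ‖iota a‖ = jnorm bvec a := by
  rw [iota_apply, UniformSpace.Completion.norm_coe]; rfl

lemma iota_dense : DenseRange iota := by
  have h := UniformSpace.Completion.denseRange_coe (α := C00)
  exact h

lemma isJ : IsJamesification bvec J iota where
  complete := inferInstance
  dense := iota_dense
  bdd := jbdd
  norm_eq := iota_norm

noncomputable def TC : C00 →ₗᵢ[ℝ] C00 where
  toLinearMap := (TL : (ℕ →₀ ℝ) →ₗ[ℝ] (ℕ →₀ ℝ))
  norm_map' a := jnorm_TL a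

lemma TC_TC (a : C00) : TC (TC a) = a := TL_TL a

noncomputable def TJ0 : J → J := UniformSpace.Completion.map TC

lemma TJ0_coe (a : C00) : TJ0 (a : J) = ((TC a : C00) : J) :=
  UniformSpace.Completion.map_coe TC.isometry.uniformContinuous a

lemma TJ0_cont : Continuous TJ0 := UniformSpace.Completion.continuous_map

noncomputable def TJ : J →ₗᵢ[ℝ] J where
  toFun := TJ0
  map_add' x y := by
    refine UniformSpace.Completion.induction_on₂ x y ?_ ?_
    · exact isClosed_eq (TJ0_cont.comp continuous_add)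
        ((TJ0_cont.comp continuous_fst).add (TJ0_cont.comp continuous_snd))
    · intro a b
      rw [← UniformSpace.Completion.coe_add, TJ0_coe, TJ0_coe, TJ0_coe, map_add, UniformSpace.Completion.coe_add]
  map_smul' c x := by
    refine UniformSpace.Completion.induction_on x ?_ ?_
    · exact isClosed_eq (TJ0_cont.comp (continuous_const_smul c)) (TJ0_cont.const_smul c)
    · intro a
      rw [← UniformSpace.Completion.coe_smul, TJ0_coe, TJ0_coe, map_smul, UniformSpace.Completion.coe_smul]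
      rfl
  norm_map' x := by
    refine UniformSpace.Completion.induction_on x ?_ ?_
    · exact isClosed_eq (continuous_norm.comp TJ0_cont) continuous_norm
    · intro a
      change ‖TJ0 (a : J)‖ = ‖(a : J)‖
      rw [TJ0_coe, UniformSpace.Completion.norm_coe, UniformSpace.Completion.norm_coe, TC.norm_map]

lemma TJ_TJ (x : J) : TJ (TJ x) = x := by
  refine UniformSpace.Completion.induction_on x ?_ ?_
  · exact isClosed_eq (TJ.continuous.comp TJ.continuous) continuous_id
  · intro a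
    change TJ0 (TJ0 (a : J)) = (a : J)
    rw [TJ0_coe, TJ0_coe, TC_TC]

lemma TJ_iota (a : ℕ →₀ ℝ) : TJ (iota a) = iota (TL a) := TJ0_coe (toC a)

theorem not_trivial : ¬ TrivialIsometryGroup J := by
  intro h
  rcases h TJ.toLinearMap (fun x => ⟨TJ x, TJ_TJ x⟩) (fun z => TJ.norm_map z) with h | h
  · have h1 : TJ (iota (Finsupp.single 0 1)) = iota (Finsupp.single 0 1) := h _
    rw [TJ_iota] at h1
    have h2 : ‖iota (TL (Finsupp.single 0 1) - Finsupp.single 0 1)‖ = 0 := by
      rw [map_sub, h1, sub_self, norm_zero]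
    rw [iota_norm] at h2
    have h3 := abs_sm_zero_le (TL (Finsupp.single 0 1) - Finsupp.single 0 1) 0
    rw [h2] at h3
    have h4 : sm (TL (Finsupp.single 0 1) - Finsupp.single 0 1) 0 0 = -2 := by
      simp only [sm, Finset.Icc_self, Finset.sum_singleton, Finsupp.sub_apply, TL_zero, Finsupp.single_eq_same]
      norm_num
    rw [h4] at h3
    norm_num at h3
  · have h1 : TJ (iota (Finsupp.single 1 1)) = -iota (Finsupp.single 1 1) := h _
    rw [TJ_iota] at h1
    have h2 : ‖iota (TL (Finsupp.single 1 1) + Finsupp.single 1 1)‖ = 0 := by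
      rw [map_add, h1, neg_add_cancel, norm_zero]
    rw [iota_norm] at h2
    have h3 := abs_sm_one_le (TL (Finsupp.single 1 1) + Finsupp.single 1 1) 1 le_rfl
    rw [h2] at h3
    have h4 : sm (TL (Finsupp.single 1 1) + Finsupp.single 1 1) 1 1 = 2 := by
      simp only [sm, Finset.Icc_self, Finset.sum_singleton, Finsupp.add_apply, TL_one, Finsupp.single_eq_same]
      simp
      norm_num
    rw [h4] at h3
    norm_num at h3

end Pool.Agent.Pr8db9c5
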